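import Mathlib

/-!
# MP_859019, one pure state, block LINE: from the circle to the half line, `p` in `(4,5)`
-/

set_option autoImplicit false

open scoped Real Topology
open MeasureTheory Set Filter Metric

namespace Pool.Agent.Lib_helper60.OPS

lemma neg_out {c ρ s : ℝ} (hc : ρ < c) (hs : 0 < s) (hρ : 0 < ρ) : ρ < ‖(-(s : ℂ)) - (c : ℂ)‖ := by
  have h1 : (-(s : ℂ)) - (c : ℂ) = ((-(s + c) : ℝ) : ℂ) := by push_cast; ring
  rw [h1, Complex.norm_real, Real.norm_eq_abs, abs_neg, abs_of_pos (by linarith)]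
  linarith

lemma add_ne {c ρ s : ℝ} (hc : ρ < c) (hs : 0 < s) {z : ℂ} (hz : ‖z - (c : ℂ)‖ ≤ ρ) :
    z + (s : ℂ) ≠ 0 := by
  intro h
  have h2 : z = -(s : ℂ) := eq_neg_of_add_eq_zero_left h
  have h3 : z - (c : ℂ) = ((-(s + c) : ℝ) : ℂ) := by rw [h2]; push_cast; ring
  have h0 : 0 ≤ ρ := (norm_nonneg _).trans hz
  rw [h3, Complex.norm_real, Real.norm_eq_abs, abs_neg, abs_of_pos (by linarith)] at hz
  linarith

/-- `H` holomorphic outside the disc, with a limit at infinity. -/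
theorem circle_res {c ρ : ℝ} (hρ : 0 < ρ) (hc : ρ < c) (H : ℂ → ℂ)
    (hH : ∀ z : ℂ, ρ ≤ ‖z - c‖ → DifferentiableAt ℂ H z) (L : ℂ)
    (hL : Tendsto H (cocompact ℂ) (𝓝 L)) {s : ℝ} (hs : 0 < s) :
    (∮ z in C((c : ℂ), ρ), H z / (z + s)) = 2 * π * Complex.I * (L - H (-(s : ℂ))) := by
  set w : ℂ := -(s : ℂ) with hw
  set g : ℂ → ℂ := dslope H w with hg
  have hwo : ρ < ‖w - c‖ := neg_out hc hs hρ
  have hgc : ∀ z : ℂ, ρ ≤ ‖z - c‖ → ContinuousAt g z := by
    intro z hz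
    rcases eq_or_ne z w with rfl | h
    · exact continuousAt_dslope_same.2 (hH _ hz)
    · exact (continuousAt_dslope_of_ne h).2 (hH _ hz).continuousAt
  have hgd : ∀ z : ℂ, ρ ≤ ‖z - c‖ → z ≠ w → DifferentiableAt ℂ g z := by
    intro z hz h
    exact (differentiableAt_dslope_of_ne h).2 (hH _ hz)
  -- independence of the radius
  have hR : ∀ R : ℝ, ρ ≤ R → (∮ z in C((c : ℂ), R), g z) = ∮ z in C((c : ℂ), ρ), g z := by
    intro R hR
    refine Complex.circleIntegral_eq_of_differentiable_on_annulus_off_countable hρ hR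
      (s := {w}) (countable_singleton w) ?_ ?_
    · intro z hz
      refine (hgc z ?_).continuousWithinAt
      have := hz.2
      rw [Metric.mem_ball, dist_eq_norm, not_lt] at this
      exact this
    · intro z hz
      refine hgd z ?_ ?_
      · have := hz.1.2
        rw [Metric.mem_closedBall, dist_eq_norm, not_le] at this
        exact this.le
      · exact fun h => hz.2 (by simpa using h)
  -- the small circle
  have h1 : (∮ z in C((c : ℂ), ρ), H z / (z + s)) =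
      (∮ z in C((c : ℂ), ρ), g z) + ∮ z in C((c : ℂ), ρ), H w * (z + s)⁻¹ := by
    have hci1 : CircleIntegrable g c ρ := by
      refine ContinuousOn.circleIntegrable hρ.le ?_
      intro z hz
      refine (hgc z ?_).continuousWithinAt
      rw [mem_sphere, dist_eq_norm] at hz
      exact hz.ge
    have hci2 : CircleIntegrable (fun z : ℂ => H w * (z + s)⁻¹) c ρ := by
      refine ContinuousOn.circleIntegrable hρ.le ?_
      intro z hz
      rw [mem_sphere, dist_eq_norm] at hz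
      have : z + (s : ℂ) ≠ 0 := add_ne hc hs hz.le
      refine ContinuousAt.continuousWithinAt ?_
      exact continuousAt_const.mul ((continuousAt_id.add continuousAt_const).inv₀ this)
    rw [← circleIntegral.integral_add hci1 hci2]
    refine circleIntegral.integral_congr hρ.le ?_
    intro z hz
    rw [mem_sphere, dist_eq_norm] at hz
    have h2 : z + (s : ℂ) ≠ 0 := add_ne hc hs hz.le
    have h3 : z ≠ w := by
      intro h; apply h2; rw [h, hw]; ring
    have h4 : g z = (H z - H w) / (z + s) := by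
      rw [hg, dslope_of_ne _ h3, slope_def_field]
      congr 1
      rw [hw]; ring
    show H z / (z + s) = g z + H w * (z + s)⁻¹
    rw [h4]
    field_simp
    ring
  have h2 : (∮ z in C((c : ℂ), ρ), H w * (z + s)⁻¹) = 0 := by
    refine Complex.circleIntegral_eq_zero_of_differentiable_on_off_countable hρ.le
      (s := ∅) countable_empty ?_ ?_
    · intro z hz
      rw [mem_closedBall, dist_eq_norm] at hz
      refine ContinuousAt.continuousWithinAt ?_
      exact continuousAt_const.mul ((continuousAt_id.add continuousAt_const).inv₀ (add_ne hc hs hz))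
    · intro z hz
      have hz' := hz.1
      rw [mem_ball, dist_eq_norm] at hz'
      exact (differentiableAt_const _).mul
        ((differentiableAt_id.add (differentiableAt_const _)).inv (add_ne hc hs hz'.le))
  rw [h1, h2, add_zero]
  -- the large circle
  set ℓ : ℂ := L - H w with hℓ
  by_contra hne
  have hpos : 0 < ‖(∮ z in C((c : ℂ), ρ), g z) - 2 * π * Complex.I * ℓ‖ :=
    norm_pos_iff.2 (sub_ne_zero.2 hne)
  set ε : ℝ := ‖(∮ z in C((c : ℂ), ρ), g z) - 2 * π * Complex.I * ℓ‖ / (4 * π) with hε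
  have hε0 : 0 < ε := by positivity
  have hK : Tendsto (fun z : ℂ => g z * (z - c)) (cocompact ℂ) (𝓝 ℓ) := by
    have e1 : Tendsto (fun z : ℂ => (H z - H w) * (1 + (w - c) / (z - w))) (cocompact ℂ)
        (𝓝 ((L - H w) * (1 + 0))) := by
      refine (hL.sub_const _).mul (tendsto_const_nhds.add ?_)
      have e2 : Tendsto (fun z : ℂ => z - w) (cocompact ℂ) (cocompact ℂ) := by
        simpa [sub_eq_add_neg] using (Homeomorph.addRight (-w)).isClosedEmbedding.tendsto_cocompact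
      have e3 : Tendsto (fun z : ℂ => (z - w)⁻¹) (cocompact ℂ) (𝓝 0) :=
        (tendsto_inv₀_cobounded (α := ℂ)).comp (by simpa [Metric.cobounded_eq_cocompact] using e2)
      simpa [div_eq_mul_inv] using e3.const_mul (w - c)
    rw [add_zero, mul_one] at e1
    refine e1.congr' ?_
    have h5 : ∀ᶠ z : ℂ in cocompact ℂ, z ≠ w := by
      have : ({w} : Set ℂ)ᶜ ∈ cocompact ℂ := isCompact_singleton.compl_mem_cocompact
      exact this
    filter_upwards [h5] with z hz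
    have hz' : z - w ≠ 0 := sub_ne_zero.2 hz
    rw [hg, dslope_of_ne _ hz, slope_def_field]
    field_simp
    ring
  have hev : ∀ᶠ z : ℂ in cocompact ℂ, ‖g z * (z - c) - ℓ‖ < ε := by
    have := (Metric.tendsto_nhds.1 hK) ε hε0
    simpa [dist_eq_norm] using this
  obtain ⟨K, hKc, hKs⟩ := mem_cocompact.1 hev
  obtain ⟨R0, hR0⟩ := hKc.isBounded.subset_closedBall (c : ℂ)
  set R : ℝ := max ρ (R0 + 1) with hRdef
  have hRρ : ρ ≤ R := le_max_left _ _
  have hRpos : 0 < R := hρ.trans_le hRρ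
  have hbd : ∀ z ∈ sphere (c : ℂ) R, ‖(g z * (z - c) - ℓ) * (z - c)⁻¹‖ ≤ ε / R := by
    intro z hz
    rw [mem_sphere, dist_eq_norm] at hz
    have hzK : z ∉ K := by
      intro h
      have := hR0 h
      rw [mem_closedBall, dist_eq_norm, hz] at this
      have := le_max_right ρ (R0 + 1)
      linarith
    have h6 : ‖g z * (z - c) - ℓ‖ < ε := hKs hzK
    rw [norm_mul, norm_inv, hz, ← div_eq_mul_inv]
    gcongr
  have h7 := circleIntegral.norm_integral_le_of_norm_le_const hRpos.le hbd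
  have h8 : (∮ z in C((c : ℂ), R), (g z * (z - c) - ℓ) * (z - c)⁻¹) =
      (∮ z in C((c : ℂ), ρ), g z) - 2 * π * Complex.I * ℓ := by
    rw [← hR R hRρ]
    have hci1 : CircleIntegrable g c R := by
      refine ContinuousOn.circleIntegrable hRpos.le ?_
      intro z hz
      refine (hgc z ?_).continuousWithinAt
      rw [mem_sphere, dist_eq_norm] at hz
      rw [hz]; exact hRρ
    have hci2 : CircleIntegrable (fun z : ℂ => ℓ * (z - c)⁻¹) c R := by
      refine ContinuousOn.circleIntegrable hRpos.le ?_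
      intro z hz
      rw [mem_sphere, dist_eq_norm] at hz
      have : z - (c : ℂ) ≠ 0 := by
        intro h; rw [h, norm_zero] at hz; linarith
      refine ContinuousAt.continuousWithinAt ?_
      exact continuousAt_const.mul ((continuousAt_id.sub continuousAt_const).inv₀ this)
    have e3 : (2 * π * Complex.I * ℓ : ℂ) = ∮ z in C((c : ℂ), R), ℓ * (z - c)⁻¹ := by
      rw [circleIntegral.integral_const_mul, circleIntegral.integral_sub_center_inv _ hRpos.ne']
      ring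
    rw [e3, ← circleIntegral.integral_sub hci1 hci2]
    refine circleIntegral.integral_congr hRpos.le ?_
    intro z hz
    rw [mem_sphere, dist_eq_norm] at hz
    have : z - (c : ℂ) ≠ 0 := by
      intro h; rw [h, norm_zero] at hz; linarith
    show (g z * (z - c) - ℓ) * (z - c)⁻¹ = g z - ℓ * (z - c)⁻¹
    field_simp
  rw [h8] at h7
  have h9 : 2 * π * R * (ε / R) = ‖(∮ z in C((c : ℂ), ρ), g z) - 2 * π * Complex.I * ℓ‖ / 2 := by
    rw [hε]; field_simp; ring
  rw [h9] at h7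
  linarith

/-! ### the kernel -/

/-- the constant `pi / sin (pi a)` -/
noncomputable def KK (a : ℝ) : ℝ := ∫ t in Ioi (0 : ℝ), Real.rpowIntegrand₀₁ a t 1

lemma KK_pos {a : ℝ} (ha0 : 0 < a) (ha1 : a < 1) : 0 < KK a :=
  Real.integral_rpowIntegrand₀₁_one_pos ⟨ha0, ha1⟩

lemma kern_eq {a x t : ℝ} (ht : 0 < t) (hx : 0 < x) :
    t ^ (a - 1) / (x + t) = x⁻¹ * Real.rpowIntegrand₀₁ a t x := by
  have h1 : t ^ (a - 1) = t ^ a / t := by
    rw [Real.rpow_sub ht, Real.rpow_one]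
  have h2 : t + x ≠ 0 := by positivity
  have h3 : x + t ≠ 0 := by positivity
  rw [Real.rpowIntegrand₀₁, h1]
  field_simp
  ring

lemma kern_int {a x : ℝ} (ha0 : 0 < a) (ha1 : a < 1) (hx : 0 < x) :
    IntegrableOn (fun t : ℝ => t ^ (a - 1) / (x + t)) (Ioi 0) := by
  have h : IntegrableOn (fun t : ℝ => x⁻¹ * Real.rpowIntegrand₀₁ a t x) (Ioi 0) :=
    (Real.integrableOn_rpowIntegrand₀₁_Ioi (p := a) ⟨ha0, ha1⟩ hx.le).const_mul x⁻¹
  refine IntegrableOn.congr_fun h ?_ measurableSet_Ioi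
  intro t ht
  exact (kern_eq ht hx).symm

lemma kern_real {a x : ℝ} (ha0 : 0 < a) (ha1 : a < 1) (hx : 0 < x) :
    (∫ t in Ioi (0 : ℝ), t ^ (a - 1) / (x + t)) = x ^ (a - 1) * KK a := by
  have h1 : (∫ t in Ioi (0 : ℝ), t ^ (a - 1) / (x + t)) =
      ∫ t in Ioi (0 : ℝ), x⁻¹ * Real.rpowIntegrand₀₁ a t x :=
    setIntegral_congr_fun measurableSet_Ioi fun t ht => kern_eq ht hx
  rw [h1, integral_const_mul, Real.integral_rpowIntegrand₀₁_eq_rpow_mul_const ⟨ha0, ha1⟩ hx.le,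
    Real.rpow_sub hx, Real.rpow_one]
  rw [KK]
  field_simp

/-- `Phi z = int t^(a-1)/(z+t)` -/
noncomputable def Phi (a : ℝ) (z : ℂ) : ℂ := ∫ t in Ioi (0 : ℝ), ((t ^ (a - 1) : ℝ) : ℂ) / (z + t)

lemma re_add_le {z : ℂ} {t : ℝ} : z.re + t ≤ ‖z + (t : ℂ)‖ := by
  have := Complex.re_le_norm (z + (t : ℂ))
  simpa using this

lemma Phi_cont_integrand {a : ℝ} {z : ℂ} (hz : 0 < z.re) :
    ContinuousOn (fun t : ℝ => ((t ^ (a - 1) : ℝ) : ℂ) / (z + t)) (Ioi 0) := by
  intro t ht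
  have ht' : (0 : ℝ) < t := ht
  refine ContinuousAt.continuousWithinAt ?_
  refine ContinuousAt.div ?_ ?_ ?_
  · exact Complex.continuous_ofReal.continuousAt.comp
      (Real.continuousAt_rpow_const _ _ (Or.inl ht'.ne'))
  · fun_prop
  · intro h
    have := re_add_le (z := z) (t := t)
    rw [h, norm_zero] at this
    linarith

lemma Phi_diff {a : ℝ} (ha0 : 0 < a) (ha1 : a < 1) {z : ℂ} (hz : 0 < z.re) :
    DifferentiableAt ℂ (Phi a) z := by
  set δ : ℝ := z.re / 2 with hδ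
  have hδ0 : 0 < δ := by positivity
  have hball : ∀ w ∈ ball z δ, δ < w.re := by
    intro w hw
    rw [mem_ball, dist_eq_norm] at hw
    have h1 := Complex.abs_re_le_norm (w - z)
    have h2 := (abs_le.1 (h1.trans hw.le)).1
    have h3 : |(w - z).re| < δ := lt_of_le_of_lt h1 hw
    have h4 := (abs_lt.1 h3).1
    rw [Complex.sub_re] at h4
    rw [hδ] at h4 ⊢
    linarith
  have hint : IntegrableOn (fun t : ℝ => δ⁻¹ * (t ^ (a - 1) / (δ + t))) (Ioi 0) :=
    (kern_int ha0 ha1 hδ0).const_mul _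
  have hint0 : IntegrableOn (fun t : ℝ => t ^ (a - 1) / (δ + t)) (Ioi 0) := kern_int ha0 ha1 hδ0
  have key := hasDerivAt_integral_of_dominated_loc_of_deriv_le (𝕜 := ℂ)
    (μ := volume.restrict (Ioi (0 : ℝ))) (x₀ := z) (s := ball z δ)
    (F := fun (w : ℂ) (t : ℝ) => ((t ^ (a - 1) : ℝ) : ℂ) / (w + t))
    (F' := fun (w : ℂ) (t : ℝ) => -(((t ^ (a - 1) : ℝ) : ℂ) / (w + t) ^ 2))
    (bound := fun t : ℝ => δ⁻¹ * (t ^ (a - 1) / (δ + t)))
    (ball_mem_nhds z hδ0) ?_ ?_ ?_ ?_ hint ?_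
  · exact key.2.differentiableAt
  · filter_upwards [ball_mem_nhds z hδ0] with w hw
    exact (Phi_cont_integrand (hδ0.trans (hball w hw))).aestronglyMeasurable measurableSet_Ioi
  · refine Integrable.mono' hint0
      ((Phi_cont_integrand hz).aestronglyMeasurable measurableSet_Ioi) ?_
    refine (ae_restrict_iff' measurableSet_Ioi).2 (Eventually.of_forall ?_)
    intro t ht
    have ht' : (0 : ℝ) < t := ht
    rw [norm_div, Complex.norm_real, Real.norm_eq_abs, abs_of_nonneg (Real.rpow_nonneg ht'.le _)]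
    have h1 : δ + t ≤ ‖z + (t : ℂ)‖ := by
      have := re_add_le (z := z) (t := t)
      have := hball z (mem_ball_self hδ0)
      linarith
    have h0 : 0 ≤ t ^ (a - 1) := Real.rpow_nonneg ht'.le _
    gcongr
  · refine ContinuousOn.aestronglyMeasurable ?_ measurableSet_Ioi
    intro t ht
    have ht' : (0 : ℝ) < t := ht
    refine ContinuousAt.continuousWithinAt ?_
    refine (ContinuousAt.div ?_ ?_ ?_).neg
    · exact Complex.continuous_ofReal.continuousAt.comp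
        (Real.continuousAt_rpow_const _ _ (Or.inl ht'.ne'))
    · fun_prop
    · refine pow_ne_zero 2 ?_
      intro h
      have := re_add_le (z := z) (t := t)
      rw [h, norm_zero] at this
      linarith
  · refine (ae_restrict_iff' measurableSet_Ioi).2 (Eventually.of_forall ?_)
    intro t ht w hw
    have ht' : (0 : ℝ) < t := ht
    have h0 : 0 ≤ t ^ (a - 1) := Real.rpow_nonneg ht'.le _
    have h1 : δ + t ≤ ‖w + (t : ℂ)‖ := by
      have := re_add_le (z := w) (t := t)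
      have := hball w hw
      linarith
    have h2 : δ ≤ ‖w + (t : ℂ)‖ := by linarith
    rw [norm_neg, norm_div, norm_pow, Complex.norm_real, Real.norm_eq_abs, abs_of_nonneg h0]
    have h3 : δ⁻¹ * (t ^ (a - 1) / (δ + t)) = t ^ (a - 1) / (δ * (δ + t)) := by
      field_simp
    rw [h3, sq]
    gcongr
  · refine (ae_restrict_iff' measurableSet_Ioi).2 (Eventually.of_forall ?_)
    intro t ht w hw
    have ht' : (0 : ℝ) < t := ht
    have hne : w + (t : ℂ) ≠ 0 := by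
      intro h
      have := re_add_le (z := w) (t := t)
      have := hball w hw
      rw [h, norm_zero] at *
      linarith
    have h1 : HasDerivAt (fun w : ℂ => w + (t : ℂ)) 1 w := (hasDerivAt_id w).add_const _
    have h2 := (h1.inv hne).const_mul ((t ^ (a - 1) : ℝ) : ℂ)
    have h3 : HasDerivAt (fun w : ℂ => ((t ^ (a - 1) : ℝ) : ℂ) / (w + t))
        (((t ^ (a - 1) : ℝ) : ℂ) * (-1 / (w + t) ^ 2)) w := by
      refine h2.congr_of_eventuallyEq (Eventually.of_forall fun y => ?_)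
      exact div_eq_mul_inv _ _
    have h4 : ((t ^ (a - 1) : ℝ) : ℂ) * (-1 / (w + t) ^ 2) =
        -(((t ^ (a - 1) : ℝ) : ℂ) / (w + t) ^ 2) := by ring
    rw [h4] at h3
    exact h3

/-- the complex kernel -/
theorem Phi_eq {a : ℝ} (ha0 : 0 < a) (ha1 : a < 1) {z : ℂ} (hz : 0 < z.re) :
    Phi a z = z ^ ((a - 1 : ℝ) : ℂ) * KK a := by
  have hU : IsOpen {z : ℂ | 0 < z.re} := isOpen_lt continuous_const Complex.continuous_re
  have hconv : Convex ℝ {z : ℂ | 0 < z.re} := convex_halfSpace_re_gt 0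
  have h1 : AnalyticOnNhd ℂ (Phi a) {z : ℂ | 0 < z.re} :=
    DifferentiableOn.analyticOnNhd (fun z hz => (Phi_diff ha0 ha1 hz).differentiableWithinAt) hU
  have h2 : AnalyticOnNhd ℂ (fun z : ℂ => z ^ ((a - 1 : ℝ) : ℂ) * KK a) {z : ℂ | 0 < z.re} := by
    refine DifferentiableOn.analyticOnNhd ?_ hU
    intro z hz
    refine DifferentiableAt.differentiableWithinAt ?_
    refine DifferentiableAt.mul_const ?_ _
    exact differentiableAt_id.cpow_const (Or.inl hz)
  have h3 : ∃ᶠ z : ℂ in 𝓝[≠] 1, Phi a z = z ^ ((a - 1 : ℝ) : ℂ) * KK a := by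
    have ht : Tendsto (fun x : ℝ => (x : ℂ)) (𝓝[≠] 1) (𝓝[≠] (1 : ℂ)) := by
      refine tendsto_nhdsWithin_iff.2 ⟨?_, ?_⟩
      · have : Tendsto (fun x : ℝ => (x : ℂ)) (𝓝 1) (𝓝 ((1 : ℝ) : ℂ)) :=
          Complex.continuous_ofReal.tendsto 1
        rw [Complex.ofReal_one] at this
        exact this.mono_left nhdsWithin_le_nhds
      · filter_upwards [self_mem_nhdsWithin] with x hx
        simpa using hx
    refine ht.frequently ?_
    refine Eventually.frequently ?_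
    have h4 : ∀ᶠ x : ℝ in 𝓝[≠] 1, 0 < x :=
      (lt_mem_nhds (zero_lt_one)).filter_mono nhdsWithin_le_nhds
    filter_upwards [h4] with x hx
    have h5 := kern_real ha0 ha1 hx
    have h6 : Phi a x = ((∫ t in Ioi (0 : ℝ), t ^ (a - 1) / (x + t) : ℝ) : ℂ) := by
      rw [Phi, ← integral_complex_ofReal]
      refine integral_congr_ae (Eventually.of_forall fun t => ?_)
      push_cast
      rfl
    rw [h6, h5, Complex.ofReal_mul, Complex.ofReal_cpow hx.le]
  exact h1.eqOn_of_preconnected_of_frequently_eq h2 hconv.isPreconnected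
    (z₀ := 1) (by simp) h3 hz

/-! ### Fubini -/

lemma re_ge {c ρ : ℝ} {z : ℂ} (hz : ‖z - (c : ℂ)‖ = ρ) : c - ρ ≤ z.re := by
  have h1 := Complex.abs_re_le_norm (z - (c : ℂ))
  rw [hz, Complex.sub_re, Complex.ofReal_re] at h1
  have := (abs_le.1 h1).1
  linarith

theorem circle_kernel {c ρ a : ℝ} (hρ : 0 < ρ) (hc : ρ < c) (ha0 : 0 < a) (ha1 : a < 1) (H : ℂ → ℂ)
    (hH : ∀ z : ℂ, ρ ≤ ‖z - c‖ → DifferentiableAt ℂ H z) :
    (∮ z in C((c : ℂ), ρ), Phi a z * H z) =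
      ∫ t in Ioi (0 : ℝ), ((t ^ (a - 1) : ℝ) : ℂ) * ∮ z in C((c : ℂ), ρ), H z / (z + t) := by
  have hsph : ∀ θ : ℝ, ‖circleMap (c : ℂ) ρ θ - (c : ℂ)‖ = ρ := by
    intro θ
    have := circleMap_mem_sphere (c : ℂ) hρ.le θ
    rwa [mem_sphere, dist_eq_norm] at this
  have hHc : ContinuousOn H (sphere (c : ℂ) ρ) := by
    intro z hz
    rw [mem_sphere, dist_eq_norm] at hz
    exact (hH z hz.ge).continuousAt.continuousWithinAt
  obtain ⟨B, hB⟩ := (isCompact_sphere (c : ℂ) ρ).exists_bound_of_continuousOn hHc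
  have hHcm : Continuous fun θ : ℝ => H (circleMap (c : ℂ) ρ θ) := by
    rw [continuous_iff_continuousAt]
    intro θ
    exact ContinuousAt.comp (g := H) (f := fun θ : ℝ => circleMap (c : ℂ) ρ θ)
      (hH _ (hsph θ).ge).continuousAt (continuous_circleMap _ _).continuousAt
  have hδ : 0 < c - ρ := sub_pos.2 hc
  have hB0 : 0 ≤ B := (norm_nonneg _).trans (hB _ (circleMap_mem_sphere (c : ℂ) hρ.le 0))
  set f : ℝ → ℝ → ℂ := fun θ t => deriv (circleMap (c : ℂ) ρ) θ *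
    (((t ^ (a - 1) : ℝ) : ℂ) / (circleMap (c : ℂ) ρ θ + t) * H (circleMap (c : ℂ) ρ θ)) with hf
  have hdc : Continuous fun θ : ℝ => deriv (circleMap (c : ℂ) ρ) θ := by
    simp only [deriv_circleMap]
    exact (continuous_circleMap 0 ρ).mul continuous_const
  have hne : ∀ θ t : ℝ, 0 < t → circleMap (c : ℂ) ρ θ + (t : ℂ) ≠ 0 := fun θ t ht =>
    add_ne hc ht (hsph θ).le
  have hcont : ContinuousOn (Function.uncurry f) (uIoc 0 (2 * π) ×ˢ Ioi (0 : ℝ)) := by
    rintro ⟨θ, t⟩ ⟨-, ht⟩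
    have ht' : (0 : ℝ) < t := ht
    refine ContinuousAt.continuousWithinAt ?_
    have c1 : ContinuousAt (fun q : ℝ × ℝ => deriv (circleMap (c : ℂ) ρ) q.1) (θ, t) :=
      (hdc.comp continuous_fst).continuousAt
    have c2 : ContinuousAt (fun q : ℝ × ℝ => ((q.2 ^ (a - 1) : ℝ) : ℂ)) (θ, t) := by
      refine Complex.continuous_ofReal.continuousAt.comp ?_
      exact ContinuousAt.comp (g := fun t : ℝ => t ^ (a - 1)) (f := fun q : ℝ × ℝ => q.2)
        (Real.continuousAt_rpow_const _ _ (Or.inl ht'.ne')) continuous_snd.continuousAt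
    have c3 : ContinuousAt (fun q : ℝ × ℝ => circleMap (c : ℂ) ρ q.1 + (q.2 : ℂ)) (θ, t) :=
      (((continuous_circleMap (c : ℂ) ρ).comp continuous_fst).add
        (Complex.continuous_ofReal.comp continuous_snd)).continuousAt
    have c4 : ContinuousAt (fun q : ℝ × ℝ => H (circleMap (c : ℂ) ρ q.1)) (θ, t) :=
      (hHcm.comp continuous_fst).continuousAt
    exact c1.mul ((c2.div c3 (hne θ t ht')).mul c4)
  have hint : Integrable (Function.uncurry f)
      ((volume.restrict (uIoc 0 (2 * π))).prod (volume.restrict (Ioi (0 : ℝ)))) := by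
    have hg : Integrable (fun q : ℝ × ℝ => (ρ * B) * (q.2 ^ (a - 1) / ((c - ρ) + q.2)))
        ((volume.restrict (uIoc 0 (2 * π))).prod (volume.restrict (Ioi (0 : ℝ)))) := by
      have h1 : Integrable (fun _ : ℝ => ρ * B) (volume.restrict (uIoc 0 (2 * π))) := by
        rw [uIoc_of_le (by positivity)]
        exact integrable_const _
      exact h1.mul_prod (kern_int ha0 ha1 hδ)
    refine hg.mono' ?_ ?_
    · rw [Measure.prod_restrict]
      exact hcont.aestronglyMeasurable (measurableSet_uIoc.prod measurableSet_Ioi)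
    · rw [Measure.prod_restrict]
      refine (ae_restrict_iff' (measurableSet_uIoc.prod measurableSet_Ioi)).2
        (Eventually.of_forall ?_)
      rintro ⟨θ, t⟩ ⟨-, ht⟩
      have ht' : (0 : ℝ) < t := ht
      have h0 : 0 ≤ t ^ (a - 1) := Real.rpow_nonneg ht'.le _
      have h1 : ‖deriv (circleMap (c : ℂ) ρ) θ‖ = ρ := by
        rw [deriv_circleMap, norm_mul, norm_circleMap_zero, Complex.norm_I, mul_one,
          abs_of_pos hρ]
      have h2 : (c - ρ) + t ≤ ‖circleMap (c : ℂ) ρ θ + (t : ℂ)‖ := by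
        have e1 := re_add_le (z := circleMap (c : ℂ) ρ θ) (t := t)
        have e2 := re_ge (hsph θ)
        linarith
      have h3 : ‖H (circleMap (c : ℂ) ρ θ)‖ ≤ B := hB _ (circleMap_mem_sphere (c : ℂ) hρ.le θ)
      show ‖f θ t‖ ≤ (ρ * B) * (t ^ (a - 1) / ((c - ρ) + t))
      rw [hf]
      simp only
      rw [norm_mul, norm_mul, norm_div, h1, Complex.norm_real, Real.norm_eq_abs, abs_of_nonneg h0]
      have h4 : t ^ (a - 1) / ‖circleMap (c : ℂ) ρ θ + (t : ℂ)‖ ≤ t ^ (a - 1) / ((c - ρ) + t) := by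
        gcongr
      have h5 : t ^ (a - 1) / ‖circleMap (c : ℂ) ρ θ + (t : ℂ)‖ * ‖H (circleMap (c : ℂ) ρ θ)‖ ≤
          t ^ (a - 1) / ((c - ρ) + t) * B := by
        gcongr
      calc ρ * (t ^ (a - 1) / ‖circleMap (c : ℂ) ρ θ + (t : ℂ)‖ * ‖H (circleMap (c : ℂ) ρ θ)‖)
          ≤ ρ * (t ^ (a - 1) / ((c - ρ) + t) * B) := by gcongr
        _ = (ρ * B) * (t ^ (a - 1) / ((c - ρ) + t)) := by ring
  have hsw := intervalIntegral_integral_swap hint
  have e1 : (∮ z in C((c : ℂ), ρ), Phi a z * H z) =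
      ∫ θ in (0 : ℝ)..(2 * π), ∫ t in Ioi (0 : ℝ), f θ t := by
    rw [circleIntegral]
    refine intervalIntegral.integral_congr ?_
    intro θ _
    show deriv (circleMap (c : ℂ) ρ) θ • (Phi a (circleMap (c : ℂ) ρ θ) *
      H (circleMap (c : ℂ) ρ θ)) = ∫ t in Ioi (0 : ℝ), f θ t
    rw [smul_eq_mul, hf]
    simp only
    rw [integral_const_mul, integral_mul_const]
    rfl
  rw [e1, hsw]
  refine integral_congr_ae (Eventually.of_forall fun t => ?_)
  show (∫ θ in (0 : ℝ)..(2 * π), f θ t) =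
    ((t ^ (a - 1) : ℝ) : ℂ) * ∮ z in C((c : ℂ), ρ), H z / (z + t)
  rw [circleIntegral, ← intervalIntegral.integral_const_mul]
  refine intervalIntegral.integral_congr ?_
  intro θ _
  show f θ t = _
  rw [hf]
  simp only [smul_eq_mul]
  ring

/-- BLOCK LINE, the exact formula -/
theorem line_eq {c ρ p : ℝ} (hρ : 0 < ρ) (hc : ρ < c) (h4 : 4 < p) (h5 : p < 5) (F H : ℂ → ℂ)
    (hFH : ∀ z : ℂ, z ≠ 0 → H z = z ^ 4 * F z)
    (hH : ∀ z : ℂ, ρ ≤ ‖z - c‖ → DifferentiableAt ℂ H z) (L : ℂ)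
    (hL : Tendsto H (cocompact ℂ) (𝓝 L)) :
    (2 * π * Complex.I : ℂ)⁻¹ * (∮ z in C((c : ℂ), ρ), z ^ ((p - 1 : ℝ) : ℂ) * F z) =
      (KK (p - 4) : ℂ)⁻¹ *
        ∫ t in Ioi (0 : ℝ), ((t ^ ((p - 4) - 1) : ℝ) : ℂ) * (L - H (-(t : ℂ))) := by
  set a : ℝ := p - 4 with ha
  have ha0 : 0 < a := by rw [ha]; linarith
  have ha1 : a < 1 := by rw [ha]; linarith
  have hK := KK_pos ha0 ha1
  have hKc : (KK a : ℂ) ≠ 0 := by exact_mod_cast hK.ne'
  have h1 : (∮ z in C((c : ℂ), ρ), z ^ ((p - 1 : ℝ) : ℂ) * F z) =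
      (KK a : ℂ)⁻¹ * ∮ z in C((c : ℂ), ρ), Phi a z * H z := by
    rw [← circleIntegral.integral_const_mul]
    refine circleIntegral.integral_congr hρ.le ?_
    intro z hz
    rw [mem_sphere, dist_eq_norm] at hz
    have hre : 0 < z.re := lt_of_lt_of_le (sub_pos.2 hc) (re_ge hz)
    have hz0 : z ≠ 0 := by
      intro h; rw [h] at hre; simp at hre
    show z ^ ((p - 1 : ℝ) : ℂ) * F z = (KK a : ℂ)⁻¹ * (Phi a z * H z)
    rw [Phi_eq ha0 ha1 hre, hFH z hz0]
    have h2 : ((p - 1 : ℝ) : ℂ) = ((a - 1 : ℝ) : ℂ) + ((4 : ℕ) : ℂ) := by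
      rw [ha]; push_cast; ring
    rw [h2, Complex.cpow_add _ _ hz0, Complex.cpow_natCast]
    field_simp
  rw [h1, circle_kernel hρ hc ha0 ha1 H hH]
  have h3 : (∫ t in Ioi (0 : ℝ), ((t ^ (a - 1) : ℝ) : ℂ) * ∮ z in C((c : ℂ), ρ), H z / (z + t)) =
      (2 * π * Complex.I) *
        ∫ t in Ioi (0 : ℝ), ((t ^ (a - 1) : ℝ) : ℂ) * (L - H (-(t : ℂ))) := by
    rw [← integral_const_mul]
    refine setIntegral_congr_fun measurableSet_Ioi ?_
    intro t ht
    show ((t ^ (a - 1) : ℝ) : ℂ) * (∮ z in C((c : ℂ), ρ), H z / (z + t)) = _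
    rw [circle_res hρ hc H hH L hL ht]
    ring
  rw [h3]
  have h6 : (2 * π * Complex.I : ℂ) ≠ 0 := Complex.two_pi_I_ne_zero
  field_simp

/-- BLOCK LINE, the sign -/
theorem line_pos' {c ρ p : ℝ} (hρ : 0 < ρ) (hc : ρ < c) (h4 : 4 < p) (h5 : p < 5) (F H : ℂ → ℂ)
    (hFH : ∀ z : ℂ, z ≠ 0 → H z = z ^ 4 * F z)
    (hH : ∀ z : ℂ, ρ ≤ ‖z - c‖ → DifferentiableAt ℂ H z) (L : ℝ)
    (hL : Tendsto H (cocompact ℂ) (𝓝 (L : ℂ)))
    (hpos : ∀ s : ℝ, 0 < s → (H (-(s : ℂ))).re ≤ L) :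
    0 ≤ ((2 * π * Complex.I : ℂ)⁻¹ *
      (∮ z in C((c : ℂ), ρ), z ^ ((p - 1 : ℝ) : ℂ) * F z)).re := by
  rw [line_eq hρ hc h4 h5 F H hFH hH L hL]
  have hK := KK_pos (a := p - 4) (by linarith) (by linarith)
  rw [← Complex.ofReal_inv, Complex.re_ofReal_mul]
  refine mul_nonneg (inv_nonneg.2 hK.le) ?_
  by_cases hi : Integrable (fun t : ℝ => ((t ^ ((p - 4) - 1) : ℝ) : ℂ) * (L - H (-(t : ℂ))))
      (volume.restrict (Ioi (0 : ℝ)))
  · have h1 := integral_re hi
    have h2 : (∫ t in Ioi (0 : ℝ), ((t ^ ((p - 4) - 1) : ℝ) : ℂ) * (L - H (-(t : ℂ)))).re =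
        ∫ t in Ioi (0 : ℝ), (((t ^ ((p - 4) - 1) : ℝ) : ℂ) * (L - H (-(t : ℂ)))).re := h1.symm
    rw [h2]
    refine setIntegral_nonneg measurableSet_Ioi ?_
    intro t ht
    have ht' : (0 : ℝ) < t := ht
    rw [Complex.re_ofReal_mul, Complex.sub_re, Complex.ofReal_re]
    exact mul_nonneg (Real.rpow_nonneg ht'.le _) (sub_nonneg.2 (hpos t ht'))
  · rw [integral_undef hi]
    simp

/-- BLOCK LINE as announced (with `F` itself; `z ^ 4 * F z` differentiable at `0`) -/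
theorem line_pos {c ρ p : ℝ} (hρ : 0 < ρ) (hc : ρ < c) (h4 : 4 < p) (h5 : p < 5) (F : ℂ → ℂ)
    (hF : ∀ z : ℂ, ρ ≤ ‖z - c‖ → z ≠ 0 → DifferentiableAt ℂ F z)
    (hF0 : DifferentiableAt ℂ (fun z => z ^ 4 * F z) 0) (L : ℝ)
    (hL : Tendsto (fun z => z ^ 4 * F z) (cocompact ℂ) (𝓝 (L : ℂ)))
    (hpos : ∀ s : ℝ, 0 < s → ((s : ℂ) ^ 4 * F (-(s : ℂ))).re ≤ L) :
    0 ≤ ((2 * π * Complex.I : ℂ)⁻¹ *
      (∮ z in C((c : ℂ), ρ), z ^ ((p - 1 : ℝ) : ℂ) * F z)).re := by
  refine line_pos' hρ hc h4 h5 F (fun z => z ^ 4 * F z) (fun z _ => rfl) ?_ L hL ?_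
  · intro z hz
    rcases eq_or_ne z 0 with rfl | h
    · exact hF0
    · exact (differentiableAt_id.pow 4).mul (hF z hz h)
  · intro s hs
    have h1 : (-(s : ℂ)) ^ 4 = (s : ℂ) ^ 4 := by ring
    show ((-(s : ℂ)) ^ 4 * F (-(s : ℂ))).re ≤ L
    rw [h1]
    exact hpos s hs

end Pool.Agent.Lib_helper60.OPS

namespace Pool.Agent.OPS

/-- BLOCK LINE as announced (with `F` itself; `z ^ 4 * F z` differentiable at `0`) -/
theorem line_pos {c ρ p : ℝ} (hρ : 0 < ρ) (hc : ρ < c) (h4 : 4 < p) (h5 : p < 5) (F : ℂ → ℂ)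
    (hF : ∀ z : ℂ, ρ ≤ ‖z - c‖ → z ≠ 0 → DifferentiableAt ℂ F z)
    (hF0 : DifferentiableAt ℂ (fun z => z ^ 4 * F z) 0) (L : ℝ)
    (hL : Tendsto (fun z => z ^ 4 * F z) (cocompact ℂ) (𝓝 (L : ℂ)))
    (hpos : ∀ s : ℝ, 0 < s → ((s : ℂ) ^ 4 * F (-(s : ℂ))).re ≤ L) :
    0 ≤ ((2 * π * Complex.I : ℂ)⁻¹ *
      (∮ z in C((c : ℂ), ρ), z ^ ((p - 1 : ℝ) : ℂ) * F z)).re :=
  Lib_helper60.OPS.line_pos hρ hc h4 h5 F hF hF0 L hL hpos

/-- the same with a separate name `H` for `z ^ 4 * F z` (no condition on `F` at `0`) -/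
theorem line_pos' {c ρ p : ℝ} (hρ : 0 < ρ) (hc : ρ < c) (h4 : 4 < p) (h5 : p < 5) (F H : ℂ → ℂ)
    (hFH : ∀ z : ℂ, z ≠ 0 → H z = z ^ 4 * F z)
    (hH : ∀ z : ℂ, ρ ≤ ‖z - c‖ → DifferentiableAt ℂ H z) (L : ℝ)
    (hL : Tendsto H (cocompact ℂ) (𝓝 (L : ℂ)))
    (hpos : ∀ s : ℝ, 0 < s → (H (-(s : ℂ))).re ≤ L) :
    0 ≤ ((2 * π * Complex.I : ℂ)⁻¹ *
      (∮ z in C((c : ℂ), ρ), z ^ ((p - 1 : ℝ) : ℂ) * F z)).re :=
  Lib_helper60.OPS.line_pos' hρ hc h4 h5 F H hFH hH L hL hpos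

end Pool.Agent.OPS
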